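import Pool.Agent.Helper32.CL.St3

/-!
# Project CL (helper32), module GB: continuity in space time
-/

set_option autoImplicit false

open Helper32.CL Helper35.PI Helper35.PI2 Pool.Agent.Helper35.CL
open scoped ContDiff Manifold Topology ENNReal BigOperators
open MeasureTheory Set Filter

namespace Pool.Agent.Helper79.CL

theorem gb_smooth : (cφ (fun p : ℝ × ℝ × ℝ × ℝ => p.1)).Smooth :=
  ⟨contDiff_fst, contDiff_const, contDiff_const, contDiff_const⟩

theorem gb_dvA {n N : ℕ} (A : Fin n → Fin n → EE N) (T : Fin n → Fin n → Fin n → EE N)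
    (ν : EE N) (v : Fin n → ℝ) :
    dvA 0 0 (cφ (fun p : ℝ × ℝ × ℝ × ℝ => p.1)) A T ν v = -hX A T := by
  have h1 : ∀ y : ℝ × ℝ × ℝ × ℝ, fderiv ℝ (fun p : ℝ × ℝ × ℝ × ℝ => p.1) y =
      ContinuousLinearMap.fst ℝ ℝ (ℝ × ℝ × ℝ) := fun y => hasFDerivAt_fst.fderiv
  have h2 : hph 0 (cφ (fun p : ℝ × ℝ × ℝ × ℝ => p.1)) A T ν v = hX A T := by
    unfold hph
    simp only [cφ]
    simp only [h1]
    simp [h4]
  unfold dvA dVa
  rw [h2]
  simp

theorem hGB (hMD : StMD) (hML : StML) (hSQ : StSQ) (hCN : StCN) : StGB := by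
  intro hcD N M _ _ _ F hF
  obtain ⟨hFc, hHc, hAc, _⟩ := hCN N M F hF
  obtain ⟨_, hdvg, _, _, _, hder, _, _⟩ := hML 2 N M F hF 0 0 _ gb_smooth
  have hHn : CST (fun q t => ‖HH (n := 2) F q t‖ ^ 2) := by
    unfold CST at hHc ⊢
    exact (hHc.norm).pow 2
  have ht0 : ContinuousOn (fun z : M × ℝ => (-2 * z.2)⁻¹) (univ ×ˢ Iio 0) := by
    refine ContinuousOn.inv₀ (by fun_prop) ?_
    intro z hz
    have : z.2 < 0 := hz.2
    have h3 : 0 < -2 * z.2 := by linarith
    exact h3.ne'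
  refine ⟨?_, ?_, ?_, ?_, ?_, ?_⟩
  · unfold CST at hdvg hder hAc ⊢
    unfold g2F
    exact (continuousOn_const.mul (hAc.pow 2)).sub (continuousOn_const.mul (hder.sub hdvg))
  · intro q t ht
    obtain ⟨A, T, ν, v, hA, hT, hAA, _, _, _, _, _, _, hfld⟩ := hMD 2 N M F hF q t ht
    have hd := (hfld 0 0 _ gb_smooth).2
    rw [gb_dvA, zero_mul, zero_div, neg_zero, Real.exp_zero, one_mul] at hd
    have h1 := hSQ.2.1 N A T hA
    have h2 : 0 ≤ tq T := by
      unfold tq
      exact Finset.sum_nonneg fun i _ => Finset.sum_nonneg fun j _ =>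
        Finset.sum_nonneg fun k _ => sq_nonneg _
    have hd2 : deriv (fun s => (cφ (fun p : ℝ × ℝ × ℝ × ℝ => p.1)).φ (i4F 2 0 F q s)) t =
        deriv (fun s => AA (n := 2) F q s) t := rfl
    rw [hd2] at hd
    have h3 : g2F F q t = 5 * XX A ^ 2 - hX A T / 2 := by
      unfold g2F
      rw [hd, hAA]
      generalize deriv (fun s => AA (n := 2) F q s) t = w
      generalize XX A = x
      generalize hX A T = y
      ring
    rw [h3]
    exact h2.trans h1
  · unfold CST at hFc ⊢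
    unfold ggF
    exact ((ht0.mul (hFc.norm.pow 2)).div_const 2).neg.rexp
  · intro q t ht
    refine ⟨Real.exp_pos _, ?_⟩
    unfold ggF
    rw [Real.exp_le_one_iff]
    have h3 : 0 < -2 * t := by linarith
    have h4 : 0 ≤ (-2 * t)⁻¹ * ‖F q t‖ ^ 2 / 2 := by positivity
    linarith
  · unfold CST at hAc hHn ⊢
    unfold thF
    exact (continuousOn_const.mul hAc).sub hHn
  · intro δ hδ
    obtain ⟨_, _, _, _, hphc, hphd, hphh, _⟩ := hML 2 N M F hF 0 0 _ (hcD δ hδ)
    refine ⟨?_, hphc, hphd, hphh, ?_⟩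
    · unfold CST at hHn ⊢
      unfold rhF
      refine (hHn.pow 4).div ((hHn.pow 4).add continuousOn_const) ?_
      intro z _
      have h5 : 0 < (‖HH (n := 2) F z.1 z.2‖ ^ 2) ^ 4 + δ ^ 4 := by positivity
      exact h5.ne'
    · intro q t _
      unfold rhF
      have h5 : 0 < (‖HH (n := 2) F q t‖ ^ 2) ^ 4 + δ ^ 4 := by positivity
      have h6 : 0 < δ ^ 4 := by positivity
      refine ⟨by positivity, ?_⟩
      rw [div_le_one h5]
      linarith

end Pool.Agent.Helper79.CL
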